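import Pool.Agent.W2helper90.FC.Up

/-!
# The asymptotic form
-/

set_option autoImplicit false

namespace Pool.Agent.W2helper90.FC

open Finset Pool.Agent.TH138.NF

theorem tow_two (i : ℕ) (x : ℝ) : tow i ((2 : ℝ) ^ x) = tow (i + 1) x := by
  induction i with
  | zero => rfl
  | succ i ih =>
    show (2 : ℝ) ^ tow i ((2 : ℝ) ^ x) = 2 ^ tow (i + 1) x
    rw [ih]

theorem mul_tow (a : ℕ) (ha : 1 ≤ a) (i : ℕ) {x : ℝ} (hx : 1 ≤ x) :
    (a : ℝ) * tow i x ≤ tow i (a * x) := by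
  induction i with
  | zero => exact le_rfl
  | succ i ih =>
    have h1 : 1 ≤ tow i x := hx.trans (le_tow i x)
    have ha' : (1 : ℝ) ≤ a := by exact_mod_cast ha
    have h2 : (a : ℝ) ≤ (2 : ℝ) ^ ((a : ℝ) - 1) := by
      obtain ⟨b, rfl⟩ : ∃ b, a = b + 1 := ⟨a - 1, by omega⟩
      push_cast
      rw [add_sub_cancel_right, Real.rpow_natCast]
      have h3 : b + 1 ≤ 2 ^ b := Nat.lt_two_pow_self
      exact_mod_cast h3
    show (a : ℝ) * 2 ^ tow i x ≤ 2 ^ tow i (a * x)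
    calc (a : ℝ) * 2 ^ tow i x ≤ (2 : ℝ) ^ ((a : ℝ) - 1) * 2 ^ tow i x := by gcongr
      _ = (2 : ℝ) ^ (((a : ℝ) - 1) + tow i x) := by rw [Real.rpow_add (by norm_num)]
      _ ≤ 2 ^ tow i (a * x) := by
          apply Real.rpow_le_rpow_of_exponent_le (by norm_num)
          refine le_trans ?_ ih
          nlinarith

/-- the constants -/
def Cc : ℕ → ℕ
  | 0 => 4
  | i + 1 => (2 * i + 7) * Cc i

theorem Cc_pos (i : ℕ) : 1 ≤ Cc i := by
  induction i with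
  | zero => decide
  | succ i ih => exact Nat.mul_pos (by omega) ih

theorem dd_le {n : ℕ} (hn : 2 ≤ n) : dd n ≤ n ^ 2 := by
  obtain ⟨m, rfl⟩ : ∃ m, n = m + 2 := ⟨n - 2, by omega⟩
  unfold dd
  simp only [Nat.add_sub_cancel]
  nlinarith

theorem one_le_L (k : ℕ) : 1 ≤ Real.logb 2 ((k : ℝ) + 2) := by
  rw [Real.le_logb_iff_rpow_le (by norm_num) (by positivity)]
  have : (0 : ℝ) ≤ k := Nat.cast_nonneg k
  simp

theorem one_le_y {n : ℕ} (hn : 2 ≤ n) (k : ℕ) :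
    1 ≤ (n : ℝ) ^ 4 + (n : ℝ) ^ 2 * Real.logb 2 ((k : ℝ) + 2) := by
  have h1 : (1 : ℝ) ≤ n := by exact_mod_cast (by omega : 1 ≤ n)
  have h2 := one_le_L k
  have h3 : (1 : ℝ) ≤ (n : ℝ) ^ 4 := one_le_pow₀ h1
  have h4 : 0 ≤ (n : ℝ) ^ 2 * Real.logb 2 ((k : ℝ) + 2) := by positivity
  linarith

theorem Bd_pos (n k i : ℕ) : 1 ≤ Bd n k i := by
  cases i with
  | zero => exact Nat.one_le_pow _ _ (by omega)
  | succ i => exact Nat.one_le_pow _ _ (by positivity)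

theorem Bd_le {n : ℕ} (hn : 2 ≤ n) (k i : ℕ) :
    (Bd n k i : ℝ) ≤
      tow (i + 1) (Cc i * ((n : ℝ) ^ 4 + (n : ℝ) ^ 2 * Real.logb 2 ((k : ℝ) + 2))) := by
  induction i with
  | zero =>
    have h1 : (dd n : ℝ) ≤ (n : ℝ) ^ 2 := by exact_mod_cast dd_le hn
    have hL := one_le_L k
    set L := Real.logb 2 ((k : ℝ) + 2) with hLdef
    have hk : (2 : ℝ) ^ L = (k : ℝ) + 2 :=
      Real.rpow_logb (by norm_num) (by norm_num) (by positivity)
    have hd0 : 1 ≤ dd n := by unfold dd; omega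
    have hdr : (1 : ℝ) ≤ dd n := by exact_mod_cast hd0
    have h2 : 2 * (4 ^ dd n * dd n * k + 1) ≤ 2 ^ (3 * dd n) * (k + 2) := by
      obtain ⟨e, he⟩ : ∃ e, dd n = e + 1 := ⟨dd n - 1, by omega⟩
      have h3 : 2 * dd n ≤ 2 ^ dd n := by
        have : e + 1 ≤ 2 ^ e := Nat.lt_two_pow_self
        rw [he, pow_succ]
        omega
      have h4 : 2 ^ (3 * dd n) = 4 ^ dd n * 2 ^ dd n := by
        rw [show (4 : ℕ) = 2 ^ 2 by norm_num, ← pow_mul, ← pow_add]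
        congr 1; ring
      have h5 : 4 ^ dd n * (2 * dd n) * k ≤ 4 ^ dd n * 2 ^ dd n * k :=
        Nat.mul_le_mul_right _ (Nat.mul_le_mul_left _ h3)
      have h6 : 1 ≤ 4 ^ dd n * 2 ^ dd n := Nat.one_le_iff_ne_zero.2 (by positivity)
      rw [h4]
      calc 2 * (4 ^ dd n * dd n * k + 1) = 4 ^ dd n * (2 * dd n) * k + 2 * 1 := by ring
        _ ≤ 4 ^ dd n * 2 ^ dd n * k + 2 * (4 ^ dd n * 2 ^ dd n) := by omega
        _ = _ := by ring
    have h6 : (Bd n k 0 : ℝ) ≤ (2 : ℝ) ^ ((dd n : ℝ) * (3 * dd n + L)) := by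
      have h7 : (Bd n k 0 : ℝ) = (((2 * (4 ^ dd n * dd n * k + 1) : ℕ) : ℝ)) ^ dd n := by
        simp only [Bd]
        push_cast
        rfl
      rw [h7]
      have h8 : (((2 * (4 ^ dd n * dd n * k + 1) : ℕ) : ℝ)) ≤ (2 : ℝ) ^ (3 * (dd n : ℝ) + L) := by
        rw [Real.rpow_add (by norm_num), hk]
        have h9 : (2 : ℝ) ^ (3 * (dd n : ℝ)) = (2 : ℝ) ^ (3 * dd n) := by
          rw [← Real.rpow_natCast]
          push_cast
          rfl
        rw [h9]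
        exact_mod_cast h2
      calc _ ≤ ((2 : ℝ) ^ (3 * (dd n : ℝ) + L)) ^ dd n := by gcongr
        _ = _ := by
          rw [← Real.rpow_natCast, ← Real.rpow_mul (by norm_num)]
          ring_nf
    refine h6.trans ?_
    show _ ≤ (2 : ℝ) ^ (_ : ℝ)
    apply Real.rpow_le_rpow_of_exponent_le (by norm_num)
    show _ ≤ ((Cc 0 : ℕ) : ℝ) * _
    have h10 : ((Cc 0 : ℕ) : ℝ) = 4 := by simp [Cc]
    rw [h10]
    have h11 : (dd n : ℝ) * dd n ≤ (n : ℝ) ^ 2 * (n : ℝ) ^ 2 := by gcongr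
    have h12 : (dd n : ℝ) * L ≤ (n : ℝ) ^ 2 * L := by gcongr
    have h13 : 0 ≤ (n : ℝ) ^ 2 * L := by positivity
    have h14 : 0 ≤ (n : ℝ) ^ 2 * (n : ℝ) ^ 2 := by positivity
    nlinarith
  | succ i ih =>
    set y := (n : ℝ) ^ 4 + (n : ℝ) ^ 2 * Real.logb 2 ((k : ℝ) + 2) with hy
    have hy1 : 1 ≤ y := one_le_y hn k
    have hC : (1 : ℝ) ≤ Cc i := by exact_mod_cast Cc_pos i
    have hCy : 1 ≤ Cc i * y := by nlinarith
    set T := Bd n k i with hT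
    have hT1 : 1 ≤ T := Bd_pos n k i
    have e1 : Bd n k (i + 1) ≤ 2 ^ (2 ^ (i + 4) * T ^ (i + 3)) := by
      simp only [Bd, ← hT]
      rw [← pow_succ', ← pow_mul]
      apply Nat.pow_le_pow_right (by norm_num)
      have h3 : 1 ≤ T ^ (i + 2) := Nat.one_le_pow _ _ hT1
      have h4 : i + 4 + 1 ≤ 2 ^ (i + 4) := Nat.lt_two_pow_self
      calc ((i + 3) * T ^ (i + 2) + 1) * T ≤ ((i + 3) * T ^ (i + 2) + T ^ (i + 2)) * T := by
            gcongr
        _ = (i + 4) * T ^ (i + 3) := by ring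
        _ ≤ 2 ^ (i + 4) * T ^ (i + 3) := by
            apply Nat.mul_le_mul_right
            omega
    have e2 : ((2 ^ (i + 4) * T ^ (i + 3) : ℕ) : ℝ) ≤
        tow (i + 1) (((2 * i + 7 : ℕ) : ℝ) * (Cc i * y)) := by
      rw [Nat.cast_mul, Nat.cast_pow, Nat.cast_pow, Nat.cast_ofNat]
      have h5 : (T : ℝ) ≤ 2 ^ tow i (Cc i * y) := ih
      have h6 : (T : ℝ) ^ (i + 3) ≤ (2 : ℝ) ^ (((i : ℝ) + 3) * tow i (Cc i * y)) := by
        calc (T : ℝ) ^ (i + 3) ≤ (2 ^ tow i (Cc i * y)) ^ (i + 3) := by gcongr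
          _ = _ := by
            rw [← Real.rpow_natCast, ← Real.rpow_mul (by norm_num)]
            push_cast
            ring_nf
      have h7 : (2 : ℝ) ^ (i + 4) = (2 : ℝ) ^ ((i : ℝ) + 4) := by
        rw [← Real.rpow_natCast]
        push_cast
        rfl
      have h8 : 1 ≤ tow i (Cc i * y) := hCy.trans (le_tow _ _)
      have hi : (0 : ℝ) ≤ i := Nat.cast_nonneg i
      calc (2 : ℝ) ^ (i + 4) * (T : ℝ) ^ (i + 3)
          ≤ (2 : ℝ) ^ ((i : ℝ) + 4) * (2 : ℝ) ^ (((i : ℝ) + 3) * tow i (Cc i * y)) := by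
            rw [h7]; gcongr
        _ = (2 : ℝ) ^ (((i : ℝ) + 4) + ((i : ℝ) + 3) * tow i (Cc i * y)) := by
            rw [← Real.rpow_add (by norm_num)]
        _ ≤ (2 : ℝ) ^ tow i (((2 * i + 7 : ℕ) : ℝ) * (Cc i * y)) := by
            apply Real.rpow_le_rpow_of_exponent_le (by norm_num)
            refine le_trans ?_ (mul_tow (2 * i + 7) (by omega) i hCy)
            push_cast
            nlinarith
        _ = _ := rfl
    have e3 : (Bd n k (i + 1) : ℝ) ≤ (2 : ℝ) ^ ((2 ^ (i + 4) * T ^ (i + 3) : ℕ) : ℝ) := by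
      rw [Real.rpow_natCast]
      exact_mod_cast e1
    have e4 : ((Cc (i + 1) : ℕ) : ℝ) * y = ((2 * i + 7 : ℕ) : ℝ) * (Cc i * y) := by
      have : Cc (i + 1) = (2 * i + 7) * Cc i := rfl
      rw [this]
      push_cast
      ring
    rw [e4]
    refine e3.trans ?_
    show _ ≤ (2 : ℝ) ^ tow (i + 1) _
    exact Real.rpow_le_rpow_of_exponent_le (by norm_num) e2

end Pool.Agent.W2helper90.FC
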