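import Pool.Agent.W2helper90.FC.Place
import Pool.Agent.TH138.NF.Main

/-!
# Four colours: double exponential growth with few colour changes
-/

set_option autoImplicit false

namespace Pool.Agent.W2helper90.FC

open Finset Pool.Agent.TH138.NF

theorem hd_up {a z : ℕ} (h : a < z) : hd a z ≤ hd a (z + 1) := by
  rw [hd_max h (Nat.lt_succ_self z)]
  exact le_max_left _ _

theorem hd_up' {a z z' : ℕ} (h : a < z) (hz : z ≤ z') : hd a z ≤ hd a z' := by
  induction z', hz using Nat.le_induction with
  | base => exact le_rfl
  | succ z' hz ih => exact ih.trans (hd_up (by omega))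

theorem hd_down {b z : ℕ} (h : z + 1 < b) : hd (z + 1) b ≤ hd z b := by
  rw [hd_max (Nat.lt_succ_self z) h]
  exact le_max_right _ _

theorem hd_down' {b z z' : ℕ} (hz : z ≤ z') : z' < b → hd z' b ≤ hd z b := by
  induction z', hz using Nat.le_induction with
  | base => intro _; exact le_rfl
  | succ z' hz ih => intro h; exact (hd_down h).trans (ih (by omega))

theorem card_up (m a : ℕ) :
    ((range (2 ^ m)).filter fun z => a < z ∧ z + 1 < 2 ^ m ∧ hd a z ≠ hd a (z + 1)).card ≤ m := by
  calc _ ≤ (range m).card := by
        apply card_le_card_of_injOn (fun z => hd a z)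
        · intro z hz
          rw [mem_coe, mem_filter, mem_range] at hz
          rw [mem_coe, mem_range]
          exact hd_lt hz.2.1 hz.1
        · intro z hz z' hz' heq
          rw [mem_coe, mem_filter] at hz hz'
          simp only at heq
          rcases lt_trichotomy z z' with h | h | h
          · exfalso
            have h1 := hd_up hz.2.1
            have h2 := hd_up' (a := a) (z := z + 1) (z' := z') (by omega) h
            exact hz.2.2.2 (by omega)
          · exact h
          · exfalso
            have h1 := hd_up hz'.2.1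
            have h2 := hd_up' (a := a) (z := z' + 1) (z' := z) (by omega) h
            exact hz'.2.2.2 (by omega)
    _ = m := card_range m

theorem card_down (m b : ℕ) (hb : b < 2 ^ m) :
    ((range (2 ^ m)).filter fun z => z + 1 < b ∧ hd z b ≠ hd (z + 1) b).card ≤ m := by
  calc _ ≤ (range m).card := by
        apply card_le_card_of_injOn (fun z => hd z b)
        · intro z hz
          rw [mem_coe, mem_filter, mem_range] at hz
          rw [mem_coe, mem_range]
          exact hd_lt (by omega) hb
        · intro z hz z' hz' heq
          rw [mem_coe, mem_filter] at hz hz'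
          simp only at heq
          rcases lt_trichotomy z z' with h | h | h
          · exfalso
            have h1 := hd_down hz.2.1
            have h2 := hd_down' (b := b) (z := z + 1) (z' := z') h (by omega)
            exact hz.2.2 (by omega)
          · exact h
          · exfalso
            have h1 := hd_down hz'.2.1
            have h2 := hd_down' (b := b) (z := z' + 1) (z' := z) h (by omega)
            exact hz'.2.2 (by omega)
    _ = m := card_range m

/-- Four colours, double exponential growth, few changes. -/
theorem four_colours (j : ℕ) : ∃ c : Finset ℕ → Bool × Bool,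
    (∀ A ⊆ range (2 ^ 2 ^ j), A.card = 2 → changes c (2 ^ 2 ^ j) A ≤ 4 * 2 ^ j) ∧
    ∀ S ⊆ range (2 ^ 2 ^ j), S.card = 4 * j + 5 → ¬ Homogeneous 3 c S := by
  classical
  obtain ⟨χ, hχ⟩ := base_lower j
  set c := colour (base χ j) (false, false) with hc
  set m := 2 ^ j with hm
  have hcomp : Computes (base χ j) (2 ^ m) c := computes_colour _ _ _
  refine ⟨c, ?_, fun S hS hcard hh => hχ S hS hcard (hom_of_homogeneous hcomp hS hh)⟩
  -- the colour of a triple
  have hcol : ∀ x y z : ℕ, x < y → y < z → z < 2 ^ m → c {x, y, z} =
      (χ (min (hd x y) (hd y z)) (max (hd x y) (hd y z)), decide (hd x y < hd y z)) := by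
    intro x y z hxy hyz hz
    have hsm : StrictMono ![x, y, z] := by
      rw [Fin.strictMono_iff_lt_succ]
      intro l
      fin_cases l
      · exact hxy
      · exact hyz
    have hlt : ∀ i, ![x, y, z] i < 2 ^ m := by
      intro i
      fin_cases i
      · exact (hxy.trans hyz).trans hz
      · exact hyz.trans hz
      · exact hz
    have h1 := hcomp _ hsm hlt
    have h2 := run_base χ j _ hsm hlt
    have h3 : univ.image ![x, y, z] = {x, y, z} := by
      ext a
      simp [Fin.exists_fin_succ, eq_comm]
    rw [h3] at h1
    rw [← h1, h2]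
    rfl
  intro A hA hcard
  obtain ⟨a, b, hab, rfl⟩ : ∃ a b, a < b ∧ A = {a, b} := by
    obtain ⟨a, b, hab, rfl⟩ := card_eq_two.1 hcard
    rcases lt_or_gt_of_ne hab with h | h
    · exact ⟨a, b, h, rfl⟩
    · exact ⟨b, a, h, pair_comm a b⟩
  have hb : b < 2 ^ m := mem_range.1 (hA (by simp))
  have hsub := changes_le (c := c) (N := 2 ^ m) (A := {a, b})
      ((((range (2 ^ m)).filter fun z => z + 1 < a ∧ hd z a ≠ hd (z + 1) a) ∪
        ((range (2 ^ m)).filter fun z => a < z ∧ z + 1 < 2 ^ m ∧ hd a z ≠ hd a (z + 1))) ∪
      (((range (2 ^ m)).filter fun z => z + 1 < b ∧ hd z b ≠ hd (z + 1) b) ∪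
        ((range (2 ^ m)).filter fun z => b < z ∧ z + 1 < 2 ^ m ∧ hd b z ≠ hd b (z + 1)))) (by
    intro z h1 h2 h3 h4
    have h0 : z ∈ range (2 ^ m) := mem_range.2 (by omega)
    simp only [mem_insert, mem_singleton, not_or] at h2 h3
    simp only [mem_union, mem_filter, h0, true_and]
    have e1 : ∀ z, insert z ({a, b} : Finset ℕ) = {a, z, b} := fun z => by
      rw [Finset.insert_comm]
    have e2 : ∀ z, insert z ({a, b} : Finset ℕ) = {a, b, z} := fun z => by
      ext t
      simp only [mem_insert, mem_singleton]
      tauto
    rcases Nat.lt_or_ge (z + 1) a with g1 | g1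
    · left; left
      refine ⟨g1, fun he => h4 ?_⟩
      have f1 := hcol z a b (by omega) hab hb
      have f2 := hcol (z + 1) a b g1 hab hb
      rw [f1, f2, he]
    · have g2 : a < z := by omega
      rcases Nat.lt_or_ge (z + 1) b with g3 | g3
      · by_cases he : hd a z = hd a (z + 1)
        · right; left
          refine ⟨g3, fun he' => h4 ?_⟩
          rw [e1, e1, hcol a z b g2 (by omega) hb, hcol a (z + 1) b (by omega) g3 hb, he, he']
        · left; right
          exact ⟨g2, h1, he⟩
      · have g4 : b < z := by omega
        right; right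
        refine ⟨g4, h1, fun he => h4 ?_⟩
        rw [e2, e2, hcol a b z hab g4 (by omega), hcol a b (z + 1) hab (by omega) h1, he])
  refine hsub.trans ?_
  refine (card_union_le _ _).trans ?_
  have i1 := card_union_le ((range (2 ^ m)).filter fun z => z + 1 < a ∧ hd z a ≠ hd (z + 1) a)
    ((range (2 ^ m)).filter fun z => a < z ∧ z + 1 < 2 ^ m ∧ hd a z ≠ hd a (z + 1))
  have i2 := card_union_le ((range (2 ^ m)).filter fun z => z + 1 < b ∧ hd z b ≠ hd (z + 1) b)
    ((range (2 ^ m)).filter fun z => b < z ∧ z + 1 < 2 ^ m ∧ hd b z ≠ hd b (z + 1))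
  have i3 := card_down m a (hab.trans hb)
  have i4 := card_up m a
  have i5 := card_down m b hb
  have i6 := card_up m b
  omega

end Pool.Agent.W2helper90.FC
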