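import Pool.Agent.W2helper90.FC.Place
import Pool.Agent.H278R2.UltraLocal

/-!
# Colourings of triples with few colour changes contain local colourings
-/

set_option autoImplicit false

namespace Pool.Agent.W2helper90.FC

open Finset Pool.Agent.H278R2.Ultra Pool.Agent.H278R2.Ultra.BT Pool.Agent.H278R2.UltraLocal

theorem rho_ex (x y : ℕ) : ∃ t, x / 2 ^ t = y / 2 ^ t := by
  refine ⟨x + y, ?_⟩
  rw [Nat.div_eq_of_lt, Nat.div_eq_of_lt]
  · exact Nat.lt_of_le_of_lt (Nat.le_add_left y x) Nat.lt_two_pow_self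
  · exact Nat.lt_of_le_of_lt (Nat.le_add_right x y) Nat.lt_two_pow_self

/-- the height of the last common ancestor -/
def rho (x y : ℕ) : ℕ := Nat.find (rho_ex x y)

theorem rho_le {x y t : ℕ} : rho x y ≤ t ↔ x / 2 ^ t = y / 2 ^ t := by
  constructor
  · intro h
    have h1 : x / 2 ^ rho x y = y / 2 ^ rho x y := Nat.find_spec (rho_ex x y)
    obtain ⟨e, rfl⟩ := Nat.exists_eq_add_of_le h
    rw [pow_add, ← Nat.div_div_eq_div_mul, ← Nat.div_div_eq_div_mul, h1]
  · intro h
    exact Nat.find_min' _ h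

theorem rho_symm (x y : ℕ) : rho x y = rho y x := by
  apply le_antisymm
  · rw [rho_le]; exact (rho_le.1 le_rfl).symm
  · rw [rho_le]; exact (rho_le.1 le_rfl).symm

theorem rho_zero {x y : ℕ} : rho x y = 0 ↔ x = y := by
  rw [← Nat.le_zero, rho_le]
  simp

theorem rho_tri (x y z : ℕ) : rho x z ≤ max (rho x y) (rho y z) := by
  rw [rho_le]
  have h1 : x / 2 ^ max (rho x y) (rho y z) = y / 2 ^ max (rho x y) (rho y z) :=
    rho_le.1 (le_max_left _ _)
  have h2 : y / 2 ^ max (rho x y) (rho y z) = z / 2 ^ max (rho x y) (rho y z) :=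
    rho_le.1 (le_max_right _ _)
  rw [h1, h2]

variable {q : ℕ}

theorem isUltrametric (d : ℕ) :
    IsUltrametric (fun x y : Fin (2 ^ d) => rho x.val y.val) where
  zero_iff x y := by rw [rho_zero, Fin.ext_iff]
  symm x y := rho_symm _ _
  tri x y z := rho_tri _ _ _

/-- the colouring of the leaves -/
def pull {κ : Type} (d : ℕ) (X : ℕ → ℕ) (c : Finset ℕ → κ) (S : Finset (Fin (2 ^ d))) : κ :=
  c (S.image fun u => X u.val)

theorem exists_local (c : Finset ℕ → Fin q) (N d k L : ℕ) (hL : 4 ^ d * d * k < L)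
    (hN : (2 * L) ^ d ≤ N) (hc : ∀ A ⊆ range N, A.card = 2 → changes c N A ≤ k) :
    ∃ X : ℕ → ℕ, (∀ u < 2 ^ d, X u < N) ∧
      (∀ u < 2 ^ d, ∀ v < 2 ^ d, X u = X v → u = v) ∧
      IsLocal (fun x y : Fin (2 ^ d) => rho x.val y.val) (pull d X c) := by
  obtain ⟨w, hw, hpl⟩ := placement c N d k L hL hN hc
  have hPd : ∀ u e, e ≤ d → P L w d u / (2 * L) ^ e = P L w (d - e) (u / 2 ^ e) := by
    intro u e he
    have := P_div hw (d - e) e u
    rwa [show d - e + e = d by omega] at this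
  refine ⟨P L w d, fun u _ => (P_lt hw d u).trans_le hN, fun u hu v hv h =>
    P_inj hw d u v hu hv h, ?_⟩
  rintro ⟨x, hx⟩ ⟨y, hy⟩ ⟨z, hz⟩ hxy hlt
  simp only at hlt
  have hxy' : x ≠ y := fun h => hxy (Fin.ext h)
  have hle : ∀ a b, a < 2 ^ d → b < 2 ^ d → rho a b ≤ d := by
    intro a b ha hb
    rw [rho_le, Nat.div_eq_of_lt ha, Nat.div_eq_of_lt hb]
  have hne_of : ∀ {a b e : ℕ}, e < rho a b → a / 2 ^ e ≠ b / 2 ^ e := by
    intro a b e he h
    have := rho_le.2 h
    omega
  constructor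
  · rintro ⟨v, hv⟩ hv2
    simp only at hv2
    have ht1 : 1 ≤ rho x y := Nat.one_le_iff_ne_zero.2 fun h => hxy' (rho_zero.1 h)
    obtain ⟨e, he⟩ : ∃ e, rho x y = e + 1 := ⟨rho x y - 1, by omega⟩
    have hed : e + 1 ≤ d := he ▸ hle x y hx hy
    have h1 : x / 2 ^ (e + 1) = y / 2 ^ (e + 1) := rho_le.1 he.le
    have h2 : x / 2 ^ e ≠ y / 2 ^ e := hne_of (by omega)
    have h3 : x / 2 ^ e = v / 2 ^ e := rho_le.1 (by omega)
    have h4 : x / 2 ^ e ≠ z / 2 ^ e := hne_of (by omega)
    have h5 : x / 2 ^ e = sib (y / 2 ^ e) := by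
      apply sib_eq _ h2
      rw [Nat.div_div_eq_div_mul, Nat.div_div_eq_div_mul, ← pow_succ]
      exact h1
    have hyz : y ≠ z := by
      rintro rfl
      omega
    have hde : d - (d - e) = e := by omega
    have key := hpl y z (d - e) hy hz hyz (by omega) (by omega) (by rw [hde, ← h5]; exact h4.symm)
      (P L w d v) (P L w d x) (by rw [hde, ← h5, hPd v e (by omega), h3])
      (by rw [hde, ← h5, hPd x e (by omega)])
    unfold pull
    simp only [image_insert, image_singleton]
    exact key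
  · rintro ⟨v, hv⟩ hv2
    simp only at hv2
    obtain ⟨e, he⟩ : ∃ e, rho x z = e + 1 := ⟨rho x z - 1, by omega⟩
    have hed : e + 1 ≤ d := he ▸ hle x z hx hz
    have h1 : x / 2 ^ (e + 1) = z / 2 ^ (e + 1) := rho_le.1 he.le
    have h2 : x / 2 ^ e ≠ z / 2 ^ e := hne_of (by omega)
    have h3 : x / 2 ^ e = y / 2 ^ e := rho_le.1 (by omega)
    have h4 : z / 2 ^ e = v / 2 ^ e := rho_le.1 (by omega)
    have h5 : z / 2 ^ e = sib (x / 2 ^ e) := by
      apply sib_eq _ h2.symm
      rw [Nat.div_div_eq_div_mul, Nat.div_div_eq_div_mul, ← pow_succ]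
      exact h1.symm
    have hde : d - (d - e) = e := by omega
    have key := hpl x y (d - e) hx hy hxy' (by omega) (by omega)
      (by rw [hde, ← h5, ← h3]; exact h2)
      (P L w d v) (P L w d z) (by rw [hde, ← h5, hPd v e (by omega), h4])
      (by rw [hde, ← h5, hPd z e (by omega)])
    unfold pull
    simp only [image_insert, image_singleton]
    have e1 : ∀ a : ℕ, ({P L w d x, P L w d y, a} : Finset ℕ) =
        insert a {P L w d x, P L w d y} := by
      intro a
      ext b
      simp only [mem_insert, mem_singleton]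
      tauto
    rw [e1, e1]
    exact key

/-- the complete binary tree -/
def tree (d : ℕ) : ℕ → ℕ → BT (Fin (2 ^ d))
  | 0, u => leaf (Fin.ofNat (2 ^ d) u)
  | h + 1, u => node (tree d h (2 * u)) (tree d h (2 * u + 1))

theorem tree_leaves (d h : ℕ) : ∀ u, (u + 1) * 2 ^ h ≤ 2 ^ d →
    ∀ b ∈ leaves (tree d h u), b.val / 2 ^ h = u := by
  induction h with
  | zero =>
    intro u hu b hb
    simp only [tree, leaves, mem_singleton] at hb
    rw [hb]
    simp only [Fin.val_ofNat, pow_zero, Nat.div_one]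
    exact Nat.mod_eq_of_lt (by simpa using hu)
  | succ h ih =>
    intro u hu b hb
    rw [pow_succ] at hu
    simp only [tree, leaves, mem_union] at hb
    rw [pow_succ, ← Nat.div_div_eq_div_mul]
    rcases hb with hb | hb
    · rw [ih (2 * u) (by nlinarith [Nat.two_pow_pos h]) b hb]
      omega
    · rw [ih (2 * u + 1) (by nlinarith) b hb]
      omega

theorem tree_valid (d h : ℕ) : ∀ u, (u + 1) * 2 ^ h ≤ 2 ^ d →
    Valid (fun x y : Fin (2 ^ d) => rho x.val y.val) (tree d h u) := by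
  induction h with
  | zero => intro u _; trivial
  | succ h ih =>
    intro u hu
    rw [pow_succ] at hu
    have h1 : (2 * u + 1) * 2 ^ h ≤ 2 ^ d := by
      nlinarith [Nat.two_pow_pos h]
    have h2 : (2 * u + 1 + 1) * 2 ^ h ≤ 2 ^ d := by nlinarith
    refine ⟨ih _ h1, ih _ h2, h + 1, ?_, ?_, ?_⟩
    · intro x hx y hy
      have e1 := tree_leaves d h _ h1 x hx
      have e2 := tree_leaves d h _ h2 y hy
      apply le_antisymm
      · rw [rho_le, pow_succ, ← Nat.div_div_eq_div_mul, ← Nat.div_div_eq_div_mul, e1, e2]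
        omega
      · by_contra hcon
        push Not at hcon
        have := rho_le.1 (Nat.lt_succ_iff.1 hcon)
        omega
    · intro x hx y hy
      have e1 := tree_leaves d h _ h1 x hx
      have e2 := tree_leaves d h _ h1 y hy
      exact Nat.lt_succ_of_le (rho_le.2 (by rw [e1, e2]))
    · intro x hx y hy
      have e1 := tree_leaves d h _ h2 x hx
      have e2 := tree_leaves d h _ h2 y hy
      exact Nat.lt_succ_of_le (rho_le.2 (by rw [e1, e2]))

theorem tree_dim (d h : ℕ) : ∀ u, dim (fun _ => True) (tree d h u) = h := by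
  induction h with
  | zero => intro u; simp [tree, dim]
  | succ h ih =>
    intro u
    simp only [tree, dim, if_true, ih]
    omega

/-- All triples of elements of `S` have colour `i`. -/
def Mono3 {κ : Type} (c : Finset ℕ → κ) (i : κ) (S : Finset ℕ) : Prop :=
  ∀ T ⊆ S, T.card = 3 → c T = i

theorem lift_mono {c : Finset ℕ → Fin q} {N d : ℕ} {X : ℕ → ℕ} (hX : ∀ u < 2 ^ d, X u < N)
    (hinj : ∀ u < 2 ^ d, ∀ v < 2 ^ d, X u = X v → u = v) {i : Fin q} {n : ℕ}
    {S : Finset (Fin (2 ^ d))} (hS : Mono (pull d X c) i S) (hn : n ≤ S.card) :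
    ∃ S ⊆ range N, S.card = n ∧ Mono3 c i S := by
  classical
  obtain ⟨S', hS', hcard⟩ := Finset.exists_subset_card_eq hn
  have hXinj : Function.Injective (fun u : Fin (2 ^ d) => X u.val) := by
    intro u v h
    exact Fin.ext (hinj _ u.2 _ v.2 h)
  refine ⟨S'.image fun u => X u.val, ?_, ?_, ?_⟩
  · intro x hx
    rw [mem_image] at hx
    obtain ⟨u, -, rfl⟩ := hx
    exact mem_range.2 (hX _ u.2)
  · rw [card_image_of_injective _ hXinj, hcard]
  · intro T hT hT3
    obtain ⟨T', hT', rfl⟩ := Finset.subset_image_iff.1 hT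
    rw [card_image_of_injective _ hXinj] at hT3
    exact hS T' (hT'.trans hS') hT3

/-- Two colours. -/
theorem two_colours (s t k N d : ℕ) (hd : (s - 2) * (t - 2) < d)
    (hN : (2 * (4 ^ d * d * k + 1)) ^ d ≤ N) (c : Finset ℕ → Fin 2)
    (hc : ∀ A ⊆ range N, A.card = 2 → changes c N A ≤ k) :
    (∃ S ⊆ range N, S.card = s ∧ Mono3 c 0 S) ∨ (∃ S ⊆ range N, S.card = t ∧ Mono3 c 1 S) := by
  classical
  obtain ⟨X, hX, hinj, hloc⟩ := exists_local c N d k _ (Nat.lt_succ_self _) hN hc
  by_contra hcon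
  push Not at hcon
  obtain ⟨h0, h1⟩ := hcon
  have g0 : ∀ S : Finset (Fin (2 ^ d)), Mono (pull d X c) 0 S → S.card < s := by
    intro S hS
    by_contra hle
    push Not at hle
    obtain ⟨S', a, b, e⟩ := lift_mono hX hinj hS hle
    exact h0 S' a b e
  have g1 : ∀ S : Finset (Fin (2 ^ d)), Mono (pull d X c) 1 S → S.card < t := by
    intro S hS
    by_contra hle
    push Not at hle
    obtain ⟨S', a, b, e⟩ := lift_mono hX hinj hS hle
    exact h1 S' a b e
  have hv := tree_valid d d 0 (by simp)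
  have m0 := mu_lt (isUltrametric d) hloc 0 s g0 (tree d d 0) hv (fun _ => True)
  have m1 := mu_lt (isUltrametric d) hloc 1 t g1 (tree d d 0) hv (fun _ => True)
  have hdim := dim_le_mul (pull d X c) (tree d d 0) (fun _ => True)
  rw [tree_dim] at hdim
  have := Nat.mul_le_mul (show mu (pull d X c) 0 (tree d d 0) (fun _ => True) ≤ s - 2 by omega)
    (show mu (pull d X c) 1 (tree d d 0) (fun _ => True) ≤ t - 2 by omega)
  omega

/-- Three colours. -/
theorem three_colours (n k N d : ℕ) (hn : 3 ≤ n) (hd : (12 * (n - 2)) ^ (3 * Nat.clog 2 n) ≤ d)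
    (hN : (2 * (4 ^ d * d * k + 1)) ^ d ≤ N) (c : Finset ℕ → Fin 3)
    (hc : ∀ A ⊆ range N, A.card = 2 → changes c N A ≤ k) :
    ∃ S ⊆ range N, S.card = n ∧ ∃ i, Mono3 c i S := by
  classical
  obtain ⟨X, hX, hinj, hloc⟩ := exists_local c N d k _ (Nat.lt_succ_self _) hN hc
  by_contra hcon
  push Not at hcon
  have g : ∀ i, ∀ S : Finset (Fin (2 ^ d)), Mono (pull d X c) i S → S.card < n := by
    intro i S hS
    by_contra hle
    push Not at hle
    obtain ⟨S', a, b, e⟩ := lift_mono hX hinj hS hle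
    exact hcon S' a b i e
  have hv := tree_valid d d 0 (by simp)
  have hdim := dim_lt_three (pull d X c) n hn (fun _ => True) (tree d d 0)
    (fun i => mu_lt (isUltrametric d) hloc i n (g i) (tree d d 0) hv (fun _ => True))
  rw [tree_dim] at hdim
  omega

end Pool.Agent.W2helper90.FC
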