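import Pool.Agent.W2helper90.FC.Asy

/-!
# Colourings of full height have many changes
-/

set_option autoImplicit false

namespace Pool.Agent.W2helper90.FC

open Finset Pool.Agent.TH138.NF

theorem two_poly (i : ℕ) : ∃ C : ℝ, ∀ n k N : ℕ, 2 ≤ n →
    tow (i + 1) (C * ((n : ℝ) ^ 4 + (n : ℝ) ^ 2 * Real.logb 2 ((k : ℝ) + 2))) ≤ N →
    ∀ c : Finset ℕ → Bool, (∀ A ⊆ range N, A.card = i + 2 → changes c N A ≤ k) →
    ∃ S ⊆ range N, S.card = n ∧ Homogeneous (i + 3) c S := by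
  refine ⟨Cc i, fun n k N hn hN c hc => ?_⟩
  apply two_all n k i N c _ hc
  have h := (Bd_le hn k i).trans hN
  exact_mod_cast h

theorem many (i : ℕ) (ε' ε : ℝ) (h0 : 0 < ε') (h1 : ε' < ε) :
    ∃ n₀ : ℕ, ∀ n N : ℕ, n₀ ≤ n → tow (i + 2) (ε * n) ≤ N → ∀ c : Finset ℕ → Bool,
      (∀ S ⊆ range N, S.card = n → ¬ Homogeneous (i + 3) c S) →
      ∃ A ⊆ range N, A.card = i + 2 ∧ (2 : ℝ) ^ ((2 : ℝ) ^ (ε' * n)) < changes c N A := by
  obtain ⟨n₁, hn₁⟩ := nat_le_rpow ((ε - ε') / 5) (by linarith)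
  refine ⟨max n₁ (3 * Cc i + 2), fun n N hn hN c hc => ?_⟩
  by_contra hcon
  push Not at hcon
  have g1 : n₁ ≤ n := (le_max_left _ _).trans hn
  have g2 : 3 * Cc i + 2 ≤ n := (le_max_right _ _).trans hn
  have hn2 : 2 ≤ n := by omega
  set M : ℝ := (2 : ℝ) ^ (ε' * n) with hM
  have hnn : (0 : ℝ) ≤ n := Nat.cast_nonneg n
  have hM1 : 1 ≤ M := Real.one_le_rpow (by norm_num) (by positivity)
  set k := ⌊(2 : ℝ) ^ M⌋₊ with hk
  have hkM : (k : ℝ) ≤ (2 : ℝ) ^ M := Nat.floor_le (by positivity)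
  have hchk : ∀ A ⊆ range N, A.card = i + 2 → changes c N A ≤ k := fun A hA hAc =>
    Nat.le_floor (hcon A hA hAc)
  have hL : Real.logb 2 ((k : ℝ) + 2) ≤ 2 * M := by
    have hk0 : (0 : ℝ) ≤ k := Nat.cast_nonneg k
    rw [Real.logb_le_iff_le_rpow (by norm_num) (by positivity)]
    have e1 : (2 : ℝ) ^ (2 * M) = 2 ^ M * 2 ^ M := by
      rw [two_mul, Real.rpow_add (by norm_num)]
    have e2 : (2 : ℝ) ≤ 2 ^ M := by
      calc (2 : ℝ) = 2 ^ (1 : ℝ) := by norm_num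
        _ ≤ 2 ^ M := Real.rpow_le_rpow_of_exponent_le (by norm_num) hM1
    rw [e1]
    nlinarith
  have hbig : (Cc i : ℝ) * ((n : ℝ) ^ 4 + (n : ℝ) ^ 2 * Real.logb 2 ((k : ℝ) + 2)) ≤
      (2 : ℝ) ^ (ε * n) := by
    have hn1 : (1 : ℝ) ≤ n := by exact_mod_cast (by omega : 1 ≤ n)
    have f1 : (n : ℝ) ^ 4 + (n : ℝ) ^ 2 * Real.logb 2 ((k : ℝ) + 2) ≤ 3 * (n : ℝ) ^ 4 * M := by
      have f2 : (n : ℝ) ^ 2 * Real.logb 2 ((k : ℝ) + 2) ≤ (n : ℝ) ^ 4 * (2 * M) := by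
        have f3 : (n : ℝ) ^ 2 ≤ (n : ℝ) ^ 4 := pow_le_pow_right₀ hn1 (by norm_num)
        calc _ ≤ (n : ℝ) ^ 2 * (2 * M) := by gcongr
          _ ≤ _ := by gcongr
      have f4 : (n : ℝ) ^ 4 ≤ (n : ℝ) ^ 4 * M := le_mul_of_one_le_right (by positivity) hM1
      linarith
    have f5 : (n : ℝ) ≤ (2 : ℝ) ^ ((ε - ε') / 5 * n) := hn₁ n g1
    have f6 : (n : ℝ) ^ 5 ≤ (2 : ℝ) ^ ((ε - ε') * n) := by
      calc (n : ℝ) ^ 5 ≤ ((2 : ℝ) ^ ((ε - ε') / 5 * n)) ^ 5 := by gcongr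
        _ = _ := by
          rw [← Real.rpow_natCast, ← Real.rpow_mul (by norm_num)]
          congr 1
          push_cast
          ring
    have f7 : (3 * Cc i : ℝ) ≤ n := by
      have : 3 * Cc i ≤ n := by omega
      exact_mod_cast this
    have hC0 : (0 : ℝ) ≤ Cc i := Nat.cast_nonneg _
    calc (Cc i : ℝ) * ((n : ℝ) ^ 4 + (n : ℝ) ^ 2 * Real.logb 2 ((k : ℝ) + 2))
        ≤ Cc i * (3 * (n : ℝ) ^ 4 * M) := by gcongr
      _ = (3 * Cc i) * (n : ℝ) ^ 4 * M := by ring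
      _ ≤ n * (n : ℝ) ^ 4 * M := by gcongr
      _ = (n : ℝ) ^ 5 * M := by ring
      _ ≤ (2 : ℝ) ^ ((ε - ε') * n) * M := by gcongr
      _ = (2 : ℝ) ^ (ε * n) := by
        rw [hM, ← Real.rpow_add (by norm_num)]
        ring_nf
  have hB := (Bd_le hn2 k i).trans (tow_mono (i + 1) hbig)
  rw [tow_two] at hB
  obtain ⟨S, hS, hSc, hh⟩ := two_all n k i N c (by exact_mod_cast hB.trans hN) hchk
  exact hc S hS hSc hh

end Pool.Agent.W2helper90.FC
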