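import Mathlib

/-!
# Colour changes, and the random placement of a complete binary tree
-/

set_option autoImplicit false

namespace Pool.Agent.W2helper90.FC

open Finset

variable {κ : Type}

open Classical in
/-- The number of changes of the colour `c (A ∪ {z})` when `z` runs through `{0, …, N - 1} \ A`:
the number of `z` such that `z` and `z + 1` are vertices outside `A` and the colours of `A ∪ {z}`
and `A ∪ {z + 1}` are different. -/
noncomputable def changes (c : Finset ℕ → κ) (N : ℕ) (A : Finset ℕ) : ℕ :=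
  ((range N).filter fun z => z + 1 < N ∧ z ∉ A ∧ z + 1 ∉ A ∧
    c (insert z A) ≠ c (insert (z + 1) A)).card

open Classical in
theorem changes_le {c : Finset ℕ → κ} {N : ℕ} {A : Finset ℕ} (T : Finset ℕ)
    (h : ∀ z, z + 1 < N → z ∉ A → z + 1 ∉ A → c (insert z A) ≠ c (insert (z + 1) A) → z ∈ T) :
    changes c N A ≤ T.card := by
  unfold changes
  apply card_le_card
  intro z hz
  rw [mem_filter] at hz
  exact h z hz.2.1 hz.2.2.1 hz.2.2.2.1 hz.2.2.2.2

open Classical in
theorem card_le_changes {c : Finset ℕ → κ} {N : ℕ} {A : Finset ℕ} (T : Finset ℕ)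
    (h : ∀ z ∈ T, z + 1 < N ∧ z ∉ A ∧ z + 1 ∉ A ∧ c (insert z A) ≠ c (insert (z + 1) A)) :
    T.card ≤ changes c N A := by
  unfold changes
  apply card_le_card
  intro z hz
  rw [mem_filter]
  exact ⟨mem_range.2 (by have := (h z hz).1; omega), h z hz⟩

/-- The place of node number `u` of level `i`, the digits being taken from `w`. -/
def P (L : ℕ) (w : ℕ → ℕ → ℕ) : ℕ → ℕ → ℕ
  | 0, _ => 0
  | i + 1, u => P L w i (u / 2) * (2 * L) + ((if u % 2 = 1 then L else 0) + w (i + 1) u)

section
variable {L : ℕ} {w : ℕ → ℕ → ℕ}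

theorem dig_lt (hw : ∀ j u, w j u < L) (j u : ℕ) :
    (if u % 2 = 1 then L else 0) + w j u < 2 * L := by
  have := hw j u
  split_ifs <;> omega

theorem P_succ_div (hw : ∀ j u, w j u < L) (i u : ℕ) :
    P L w (i + 1) u / (2 * L) = P L w i (u / 2) := by
  have h1 := dig_lt hw (i + 1) u
  have h2 : 0 < 2 * L := by omega
  show (P L w i (u / 2) * (2 * L) + ((if u % 2 = 1 then L else 0) + w (i + 1) u)) / (2 * L) = _
  rw [Nat.add_comm, Nat.add_mul_div_right _ _ h2, Nat.div_eq_of_lt h1, Nat.zero_add]

theorem P_succ_mod (hw : ∀ j u, w j u < L) (i u : ℕ) :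
    P L w (i + 1) u % (2 * L) = (if u % 2 = 1 then L else 0) + w (i + 1) u := by
  have h1 := dig_lt hw (i + 1) u
  show (P L w i (u / 2) * (2 * L) + ((if u % 2 = 1 then L else 0) + w (i + 1) u)) % (2 * L) = _
  rw [Nat.mul_comm, Nat.mul_add_mod, Nat.mod_eq_of_lt h1]

theorem P_div (hw : ∀ j u, w j u < L) (i j : ℕ) : ∀ u,
    P L w (i + j) u / (2 * L) ^ j = P L w i (u / 2 ^ j) := by
  induction j with
  | zero => intro u; simp
  | succ j ih =>
    intro u
    rw [pow_succ', ← Nat.div_div_eq_div_mul, show i + (j + 1) = (i + j) + 1 by ring,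
      P_succ_div hw, ih, Nat.div_div_eq_div_mul, ← pow_succ']

theorem P_lt (hw : ∀ j u, w j u < L) (i : ℕ) : ∀ u, P L w i u < (2 * L) ^ i := by
  induction i with
  | zero => intro u; simp [P]
  | succ i ih =>
    intro u
    have h1 := dig_lt hw (i + 1) u
    have h2 := ih (u / 2)
    show P L w i (u / 2) * (2 * L) + ((if u % 2 = 1 then L else 0) + w (i + 1) u) < _
    rw [pow_succ]
    calc P L w i (u / 2) * (2 * L) + ((if u % 2 = 1 then L else 0) + w (i + 1) u)
        < P L w i (u / 2) * (2 * L) + 2 * L := by omega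
      _ = (P L w i (u / 2) + 1) * (2 * L) := by ring
      _ ≤ (2 * L) ^ i * (2 * L) := Nat.mul_le_mul_right _ h2

theorem P_inj (hw : ∀ j u, w j u < L) (i : ℕ) : ∀ u v, u < 2 ^ i → v < 2 ^ i →
    P L w i u = P L w i v → u = v := by
  induction i with
  | zero => intro u v hu hv _; simp at hu hv; omega
  | succ i ih =>
    intro u v hu hv h
    have h1 : P L w i (u / 2) = P L w i (v / 2) := by
      rw [← P_succ_div hw, ← P_succ_div hw, h]
    have h2 : u / 2 = v / 2 := by
      apply ih _ _ _ _ h1
      · rw [pow_succ] at hu; omega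
      · rw [pow_succ] at hv; omega
    have h3 : (if u % 2 = 1 then L else 0) + w (i + 1) u =
        (if v % 2 = 1 then L else 0) + w (i + 1) v := by
      rw [← P_succ_mod hw, ← P_succ_mod hw, h]
    have h4 := hw (i + 1) u
    have h5 := hw (i + 1) v
    split_ifs at h3 <;> omega

theorem P_congr {w' : ℕ → ℕ → ℕ} (i : ℕ) : ∀ u,
    (∀ j, 1 ≤ j → j ≤ i → w j (u / 2 ^ (i - j)) = w' j (u / 2 ^ (i - j))) →
    P L w i u = P L w' i u := by
  induction i with
  | zero => intro u _; rfl
  | succ i ih =>
    intro u h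
    have h1 := h (i + 1) (by omega) le_rfl
    simp only [Nat.sub_self, pow_zero, Nat.div_one] at h1
    have h2 : P L w i (u / 2) = P L w' i (u / 2) := by
      apply ih
      intro j hj1 hj2
      have h3 := h j hj1 (by omega)
      rw [show i + 1 - j = (i - j) + 1 by omega, pow_succ', ← Nat.div_div_eq_div_mul] at h3
      exact h3
    show P L w i (u / 2) * (2 * L) + ((if u % 2 = 1 then L else 0) + w (i + 1) u) =
      P L w' i (u / 2) * (2 * L) + ((if u % 2 = 1 then L else 0) + w' (i + 1) u)
    rw [h1, h2]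

end

/-- union bound for product spaces -/
theorem exists_good {I E : Type} [Fintype I] [DecidableEq I] {L : ℕ} (S : Finset E)
    (coord : E → I) (Bad : E → (I → Fin L) → Prop) (k : ℕ)
    (h : ∀ e ∈ S, ∀ f : I → Fin L,
      {v : Fin L | Bad e (Function.update f (coord e) v)}.ncard ≤ k)
    (hk : S.card * k < L) : ∃ f, ∀ e ∈ S, ¬ Bad e f := by
  classical
  have hL : 0 < L := by omega
  have : NeZero L := ⟨hL.ne'⟩
  by_contra hcon
  push Not at hcon
  have hbad : ∀ e ∈ S, (univ.filter fun f : I → Fin L => Bad e f).card * L ≤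
      k * Fintype.card (I → Fin L) := by
    intro e he
    set i := coord e with hi
    let φ : (I → Fin L) × Fin L → (I → Fin L) × Fin L := fun p => (Function.update p.1 i p.2, p.1 i)
    have hφ : ∀ p, φ (φ p) = p := by
      rintro ⟨f, v⟩
      simp [φ]
    have h1 : ((univ.filter fun f : I → Fin L => Bad e f) ×ˢ (univ : Finset (Fin L))).card =
        (univ.filter fun p : (I → Fin L) × Fin L => Bad e (Function.update p.1 i p.2)).card := by
      apply Finset.card_bij (fun p _ => φ p)
      · intro p hp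
        simp only [mem_product, mem_filter, mem_univ, true_and, and_true] at hp ⊢
        have : Function.update (φ p).1 i (φ p).2 = p.1 := by
          have := congrArg Prod.fst (hφ p)
          exact this
        rw [this]
        exact hp
      · intro p _ q _ hpq
        rw [← hφ p, ← hφ q, hpq]
      · intro p hp
        simp only [mem_filter, mem_univ, true_and] at hp
        refine ⟨φ p, ?_, hφ p⟩
        simp only [mem_product, mem_filter, mem_univ, true_and, and_true]
        exact hp
    rw [card_product, card_univ, Fintype.card_fin] at h1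
    rw [h1]
    have h2 : (univ.filter fun p : (I → Fin L) × Fin L => Bad e (Function.update p.1 i p.2)).card =
        ∑ f : I → Fin L, (univ.filter fun v : Fin L => Bad e (Function.update f i v)).card := by
      rw [card_filter, ← Finset.univ_product_univ, Finset.sum_product]
      apply Finset.sum_congr rfl
      intro f _
      rw [card_filter]
    rw [h2]
    calc ∑ f : I → Fin L, (univ.filter fun v : Fin L => Bad e (Function.update f i v)).card
        ≤ ∑ _f : I → Fin L, k := by
          apply Finset.sum_le_sum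
          intro f _
          have := h e he f
          rw [Set.ncard_eq_toFinset_card'] at this
          simpa using this
      _ = k * Fintype.card (I → Fin L) := by
          rw [Finset.sum_const, card_univ, smul_eq_mul, Nat.mul_comm]
  have hcover : (univ : Finset (I → Fin L)) ⊆ S.biUnion fun e => univ.filter fun f => Bad e f := by
    intro f _
    obtain ⟨e, he, hb⟩ := hcon f
    rw [mem_biUnion]
    exact ⟨e, he, by simpa using hb⟩
  have h3 : Fintype.card (I → Fin L) ≤ ∑ e ∈ S, (univ.filter fun f : I → Fin L => Bad e f).card := by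
    rw [← card_univ]
    exact (card_le_card hcover).trans card_biUnion_le
  have h4 : Fintype.card (I → Fin L) * L ≤ S.card * (k * Fintype.card (I → Fin L)) := by
    calc Fintype.card (I → Fin L) * L
        ≤ (∑ e ∈ S, (univ.filter fun f : I → Fin L => Bad e f).card) * L :=
          Nat.mul_le_mul_right _ h3
      _ = ∑ e ∈ S, (univ.filter fun f : I → Fin L => Bad e f).card * L := by rw [sum_mul]
      _ ≤ ∑ _e ∈ S, k * Fintype.card (I → Fin L) := Finset.sum_le_sum hbad
      _ = S.card * (k * Fintype.card (I → Fin L)) := by rw [sum_const, smul_eq_mul]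
  have hpos : 0 < Fintype.card (I → Fin L) := Fintype.card_pos
  have h5 : Fintype.card (I → Fin L) * L ≤ Fintype.card (I → Fin L) * (S.card * k) := by
    calc _ ≤ _ := h4
      _ = _ := by ring
  have h6 := Nat.le_of_mul_le_mul_left h5 hpos
  omega

/-- A function which is not constant on a set of consecutive integers changes somewhere. -/
theorem exists_change {f : ℕ → κ} {M q : ℕ} {z z' : ℕ} (hz : z / M = q) (hz' : z' / M = q)
    (hne : f z ≠ f z') : ∃ x, x / M = q ∧ (x + 1) / M = q ∧ f x ≠ f (x + 1) := by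
  by_contra hcon
  push Not at hcon
  have key : ∀ a b, a ≤ b → a / M = q → b / M = q → f a = f b := by
    intro a b hab
    induction b, hab using Nat.le_induction with
    | base => intro _ _; rfl
    | succ b hab ih =>
      intro h1 h2
      have h3 : b / M = q := by
        apply le_antisymm
        · rw [← h2]; exact Nat.div_le_div_right (Nat.le_succ b)
        · rw [← h1]; exact Nat.div_le_div_right hab
      rw [ih h1 h3]
      exact hcon b h3 h2
  rcases le_total z z' with h | h
  · exact hne (key z z' h hz hz')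
  · exact hne (key z' z h hz' hz).symm

/-- The number of broken intervals is at most the number of changes. -/
theorem broken_le (c : Finset ℕ → κ) (N M base L : ℕ) (A : Finset ℕ)
    (hM0 : 0 < M) (hN : (base + L) * M ≤ N) (hA : ∀ a ∈ A, ∀ v < L, a / M ≠ base + v) :
    {v : Fin L | ∃ z z', z / M = base + v ∧ z' / M = base + v ∧
      c (insert z A) ≠ c (insert z' A)}.ncard ≤ changes c N A := by
  classical
  have hM : ∀ v : Fin L, (∃ z z', z / M = base + v ∧ z' / M = base + v ∧
      c (insert z A) ≠ c (insert z' A)) → ∃ x, x / M = base + v ∧ (x + 1) / M = base + v ∧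
      c (insert x A) ≠ c (insert (x + 1) A) := by
    rintro v ⟨z, z', h1, h2, h3⟩
    exact exists_change (f := fun z => c (insert z A)) h1 h2 h3
  let g : Fin L → ℕ := fun v => if h : (∃ z z', z / M = base + v ∧ z' / M = base + v ∧
      c (insert z A) ≠ c (insert z' A)) then (hM v h).choose else 0
  have hg : ∀ v : Fin L, (∃ z z', z / M = base + v ∧ z' / M = base + v ∧
      c (insert z A) ≠ c (insert z' A)) → g v / M = base + v ∧ (g v + 1) / M = base + v ∧
      c (insert (g v) A) ≠ c (insert (g v + 1) A) := by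
    intro v h
    have : g v = (hM v h).choose := dif_pos h
    rw [this]
    exact (hM v h).choose_spec
  unfold changes
  rw [← Set.ncard_coe_finset]
  apply Set.ncard_le_ncard_of_injOn g
  · intro v hv
    obtain ⟨h1, h2, h3⟩ := hg v hv
    have hlt : g v + 1 < N := by
      have h4 : (g v + 1) < (base + v + 1) * M := by
        rw [← Nat.div_lt_iff_lt_mul hM0]
        omega
      have h5 : (base + v + 1) * M ≤ (base + L) * M := by
        apply Nat.mul_le_mul_right
        have := v.2
        omega
      omega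
    simp only [coe_filter, mem_range, Set.mem_ofPred_eq]
    refine ⟨by omega, hlt, ?_, ?_, h3⟩
    · intro hmem
      exact hA _ hmem v v.2 h1
    · intro hmem
      exact hA _ hmem v v.2 h2
  · intro v hv v' hv' heq
    obtain ⟨h1, _, _⟩ := hg v hv
    obtain ⟨h2, _, _⟩ := hg v' hv'
    rw [heq, h2] at h1
    exact Fin.ext (by omega)

/-- the other child of the same node -/
def sib (u : ℕ) : ℕ := if u % 2 = 0 then u + 1 else u - 1

theorem sib_div (u : ℕ) : sib u / 2 = u / 2 := by
  unfold sib
  split_ifs <;> omega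

theorem sib_mod (u : ℕ) : sib u % 2 ≠ u % 2 := by
  unfold sib
  split_ifs <;> omega

theorem sib_eq {u v : ℕ} (h1 : v / 2 = u / 2) (h2 : v ≠ u) : v = sib u := by
  unfold sib
  split_ifs <;> omega

/-- the digits as a function on the natural numbers -/
def ext {d L : ℕ} (f : Fin (d + 1) × Fin (2 ^ d) → Fin L) (j u : ℕ) : ℕ :=
  if h : j < d + 1 ∧ u < 2 ^ d then (f (⟨j, h.1⟩, ⟨u, h.2⟩)).val else 0

theorem ext_lt {d L : ℕ} (hL : 0 < L) (f : Fin (d + 1) × Fin (2 ^ d) → Fin L) (j u : ℕ) :
    ext f j u < L := by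
  unfold ext
  split_ifs
  · exact Fin.isLt _
  · exact hL

theorem ext_update {d L : ℕ} (f : Fin (d + 1) × Fin (2 ^ d) → Fin L) (i : Fin (d + 1))
    (u : Fin (2 ^ d)) (v : Fin L) (j m : ℕ) :
    ext (Function.update f (i, u) v) j m = if j = i ∧ m = u then v.val else ext f j m := by
  unfold ext
  by_cases h : j < d + 1 ∧ m < 2 ^ d
  · rw [dif_pos h, dif_pos h]
    by_cases h2 : j = i ∧ m = u
    · rw [if_pos h2]
      have : ((⟨j, h.1⟩, ⟨m, h.2⟩) : Fin (d + 1) × Fin (2 ^ d)) = (i, u) :=
        Prod.ext (Fin.ext h2.1) (Fin.ext h2.2)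
      rw [this, Function.update_self]
    · rw [if_neg h2]
      have : ((⟨j, h.1⟩, ⟨m, h.2⟩) : Fin (d + 1) × Fin (2 ^ d)) ≠ (i, u) := by
        intro e
        rw [Prod.ext_iff, Fin.ext_iff, Fin.ext_iff] at e
        exact h2 e
      rw [Function.update_of_ne this]
  · rw [dif_neg h, dif_neg h]
    rw [if_neg]
    rintro ⟨h1, h2⟩
    exact h ⟨h1 ▸ i.2, h2 ▸ u.2⟩

/-- The placement theorem. -/
theorem placement (c : Finset ℕ → κ) (N d k L : ℕ) (hL : 4 ^ d * d * k < L)
    (hN : (2 * L) ^ d ≤ N) (hc : ∀ A ⊆ range N, A.card = 2 → changes c N A ≤ k) :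
    ∃ w : ℕ → ℕ → ℕ, (∀ j u, w j u < L) ∧ ∀ b b' j, b < 2 ^ d → b' < 2 ^ d → b ≠ b' → 1 ≤ j →
      j ≤ d → b' / 2 ^ (d - j) ≠ sib (b / 2 ^ (d - j)) → ∀ z z',
      z / (2 * L) ^ (d - j) = P L w j (sib (b / 2 ^ (d - j))) →
      z' / (2 * L) ^ (d - j) = P L w j (sib (b / 2 ^ (d - j))) →
      c (insert z {P L w d b, P L w d b'}) = c (insert z' {P L w d b, P L w d b'}) := by
  classical
  have hL0 : 0 < L := by omega
  have hnode : ∀ b j, b < 2 ^ d → 1 ≤ j → j ≤ d → sib (b / 2 ^ (d - j)) < 2 ^ j := by
    intro b j hb hj hjd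
    have h1 : b / 2 ^ (d - j) < 2 ^ j := by
      rw [Nat.div_lt_iff_lt_mul (by positivity), ← pow_add, show j + (d - j) = d by omega]
      exact hb
    obtain ⟨i, rfl⟩ : ∃ i, j = i + 1 := ⟨j - 1, by omega⟩
    have h2 := sib_div (b / 2 ^ (d - (i + 1)))
    rw [pow_succ] at h1 ⊢
    omega
  have hnode' : ∀ b j, b < 2 ^ d → 1 ≤ j → j ≤ d → sib (b / 2 ^ (d - j)) < 2 ^ d :=
    fun b j hb hj hjd => (hnode b j hb hj hjd).trans_le (Nat.pow_le_pow_right (by norm_num) hjd)
  -- events
  let coord : (Fin (2 ^ d) × Fin (2 ^ d)) × Fin d → Fin (d + 1) × Fin (2 ^ d) := fun e =>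
    (⟨e.2 + 1, by have := e.2.2; omega⟩, ⟨sib (e.1.1 / 2 ^ (d - (e.2 + 1))),
      hnode' _ _ e.1.1.2 (by omega) (by have := e.2.2; omega)⟩)
  let Bad : (Fin (2 ^ d) × Fin (2 ^ d)) × Fin d → (Fin (d + 1) × Fin (2 ^ d) → Fin L) → Prop :=
    fun e f => e.1.1 ≠ e.1.2 ∧
      (e.1.2 : ℕ) / 2 ^ (d - (e.2 + 1)) ≠ sib (e.1.1 / 2 ^ (d - (e.2 + 1))) ∧
      ∃ z z', z / (2 * L) ^ (d - (e.2 + 1)) =
          P L (ext f) (e.2 + 1) (sib (e.1.1 / 2 ^ (d - (e.2 + 1)))) ∧
        z' / (2 * L) ^ (d - (e.2 + 1)) =
          P L (ext f) (e.2 + 1) (sib (e.1.1 / 2 ^ (d - (e.2 + 1)))) ∧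
        c (insert z {P L (ext f) d e.1.1, P L (ext f) d e.1.2}) ≠
          c (insert z' {P L (ext f) d e.1.1, P L (ext f) d e.1.2})
  have hex : ∃ f, ∀ e ∈ (univ : Finset ((Fin (2 ^ d) × Fin (2 ^ d)) × Fin d)), ¬ Bad e f := by
    apply exists_good (L := L) (univ : Finset ((Fin (2 ^ d) × Fin (2 ^ d)) × Fin d)) coord Bad k
    rotate_left
    · rw [card_univ, Fintype.card_prod, Fintype.card_prod, Fintype.card_fin, Fintype.card_fin,
        ← Nat.mul_pow]
      exact hL
    · rintro ⟨⟨⟨b, hb⟩, ⟨b', hb'⟩⟩, ⟨i, hi⟩⟩ - f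
      by_cases hbb : b = b'
      · subst hbb
        have : {v : Fin L | Bad ((⟨b, hb⟩, ⟨b, hb⟩), ⟨i, hi⟩)
            (Function.update f (coord ((⟨b, hb⟩, ⟨b, hb⟩), ⟨i, hi⟩)) v)} = ∅ := by
          ext v
          simp [Bad]
        rw [this, Set.ncard_empty]
        exact Nat.zero_le k
      by_cases hns : b' / 2 ^ (d - (i + 1)) = sib (b / 2 ^ (d - (i + 1)))
      · have : {v : Fin L | Bad ((⟨b, hb⟩, ⟨b', hb'⟩), ⟨i, hi⟩)
            (Function.update f (coord ((⟨b, hb⟩, ⟨b', hb'⟩), ⟨i, hi⟩)) v)} = ∅ := by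
          ext v
          simp [Bad, hns]
        rw [this, Set.ncard_empty]
        exact Nat.zero_le k
      set j := i + 1 with hj
      set nd := sib (b / 2 ^ (d - j)) with hnd
      have hndlt : nd < 2 ^ j := hnode b j hb (by omega) (by omega)
      set w := ext f with hw
      have hwlt := ext_lt hL0 f
      rw [← hw] at hwlt
      -- the digits after the update
      have hupd : ∀ (v : Fin L) (m u : ℕ), m ≤ d → (∀ l, 1 ≤ l → l ≤ m →
          ¬ (l = j ∧ u / 2 ^ (m - l) = nd)) →
          P L (ext (Function.update f (coord ((⟨b, hb⟩, ⟨b', hb'⟩), ⟨i, hi⟩)) v)) m u =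
            P L w m u := by
        intro v m u hm h
        apply P_congr
        intro l hl1 hl2
        have h1 := ext_update f (coord ((⟨b, hb⟩, ⟨b', hb'⟩), ⟨i, hi⟩)).1
          (coord ((⟨b, hb⟩, ⟨b', hb'⟩), ⟨i, hi⟩)).2 v l (u / 2 ^ (m - l))
        rw [Prod.mk.eta] at h1
        rw [h1, if_neg]
        exact h l hl1 hl2
      have hb0 : ∀ v : Fin L,
          P L (ext (Function.update f (coord ((⟨b, hb⟩, ⟨b', hb'⟩), ⟨i, hi⟩)) v)) d b =
            P L w d b := by
        intro v
        apply hupd v d b le_rfl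
        rintro l _ _ ⟨rfl, h⟩
        have := sib_mod (b / 2 ^ (d - j))
        rw [← hnd, h] at this
        exact this rfl
      have hb1 : ∀ v : Fin L,
          P L (ext (Function.update f (coord ((⟨b, hb⟩, ⟨b', hb'⟩), ⟨i, hi⟩)) v)) d b' =
            P L w d b' := by
        intro v
        apply hupd v d b' le_rfl
        rintro l _ _ ⟨rfl, h⟩
        exact hns h
      have hbase : ∀ v : Fin L,
          P L (ext (Function.update f (coord ((⟨b, hb⟩, ⟨b', hb'⟩), ⟨i, hi⟩)) v)) j nd =
            (P L w i (nd / 2) * (2 * L) + (if nd % 2 = 1 then L else 0)) + v := by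
        intro v
        have h1 : P L (ext (Function.update f (coord ((⟨b, hb⟩, ⟨b', hb'⟩), ⟨i, hi⟩)) v)) i
            (nd / 2) = P L w i (nd / 2) := by
          apply hupd v i (nd / 2) (by omega)
          rintro l _ hl ⟨rfl, _⟩
          omega
        have h2 := ext_update f (coord ((⟨b, hb⟩, ⟨b', hb'⟩), ⟨i, hi⟩)).1
          (coord ((⟨b, hb⟩, ⟨b', hb'⟩), ⟨i, hi⟩)).2 v j nd
        rw [Prod.mk.eta, if_pos ⟨rfl, rfl⟩] at h2
        show P L (ext (Function.update f (coord ((⟨b, hb⟩, ⟨b', hb'⟩), ⟨i, hi⟩)) v)) i (nd / 2) *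
          (2 * L) + ((if nd % 2 = 1 then L else 0) +
          ext (Function.update f (coord ((⟨b, hb⟩, ⟨b', hb'⟩), ⟨i, hi⟩)) v) j nd) = _
        rw [h1, h2]
        ring
      set base := P L w i (nd / 2) * (2 * L) + (if nd % 2 = 1 then L else 0) with hbase'
      have hPlt : P L w i (nd / 2) < (2 * L) ^ i := P_lt hwlt i _
      have hbaseL : base + L ≤ (2 * L) ^ j := by
        have h1 : base + L ≤ P L w i (nd / 2) * (2 * L) + 2 * L := by
          rw [hbase']
          split_ifs <;> omega
        calc base + L ≤ (P L w i (nd / 2) + 1) * (2 * L) := by linarith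
          _ ≤ (2 * L) ^ i * (2 * L) := Nat.mul_le_mul_right _ hPlt
          _ = (2 * L) ^ j := by rw [hj, pow_succ]
      have hM : (base + L) * (2 * L) ^ (d - j) ≤ N := by
        calc (base + L) * (2 * L) ^ (d - j) ≤ (2 * L) ^ j * (2 * L) ^ (d - j) :=
              Nat.mul_le_mul_right _ hbaseL
          _ = (2 * L) ^ d := by rw [← pow_add, show j + (d - j) = d by omega]
          _ ≤ N := hN
      have hPd : ∀ u, P L w d u / (2 * L) ^ (d - j) = P L w j (u / 2 ^ (d - j)) := by
        intro u
        have := P_div hwlt j (d - j) u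
        rwa [show j + (d - j) = d by omega] at this
      -- the elements of `A` are outside of the intervals
      have hout : ∀ u, u < 2 ^ d → u / 2 ^ (d - j) ≠ nd → ∀ v < L,
          P L w d u / (2 * L) ^ (d - j) ≠ base + v := by
        intro u hu hne v hv
        rw [hPd]
        set m := u / 2 ^ (d - j) with hm
        intro heq
        have e1 : P L w j m / (2 * L) = P L w i (m / 2) := P_succ_div hwlt i m
        have e2 : P L w j m % (2 * L) = (if m % 2 = 1 then L else 0) + w j m := P_succ_mod hwlt i m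
        have h2L : (if nd % 2 = 1 then L else 0) + v < 2 * L := by
          split_ifs <;> omega
        have e3 : (base + v) / (2 * L) = P L w i (nd / 2) := by
          rw [hbase', Nat.add_assoc, Nat.mul_comm, Nat.mul_add_div (by omega),
            Nat.div_eq_of_lt h2L, Nat.add_zero]
        have e4 : (base + v) % (2 * L) = (if nd % 2 = 1 then L else 0) + v := by
          rw [hbase', Nat.add_assoc, Nat.mul_comm, Nat.mul_add_mod, Nat.mod_eq_of_lt h2L]
        have hmlt : m < 2 ^ j := by
          rw [hm, Nat.div_lt_iff_lt_mul (by positivity), ← pow_add, show j + (d - j) = d by omega]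
          exact hu
        have e5 : m / 2 = nd / 2 := by
          apply P_inj hwlt i
          · rw [hj, pow_succ] at hmlt; omega
          · rw [hj, pow_succ] at hndlt; omega
          · rw [← e1, ← e3, heq]
        have e6 : (if m % 2 = 1 then L else 0) + w j m = (if nd % 2 = 1 then L else 0) + v := by
          rw [← e2, ← e4, heq]
        have e7 := hwlt j m
        have e8 : m % 2 = nd % 2 := by
          split_ifs at e6 <;> omega
        exact hne (by omega)
      have hlt := P_lt hwlt d
      have hA1 : ({P L w d b, P L w d b'} : Finset ℕ) ⊆ range N := by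
        intro x hx
        rw [mem_insert, mem_singleton] at hx
        rw [mem_range]
        rcases hx with rfl | rfl
        · exact (hlt _).trans_le hN
        · exact (hlt _).trans_le hN
      have hA2 : ({P L w d b, P L w d b'} : Finset ℕ).card = 2 := by
        apply card_pair
        intro h
        exact hbb (P_inj hwlt d b b' hb hb' h)
      refine le_trans ?_ (hc _ hA1 hA2)
      refine le_trans ?_ (broken_le c N ((2 * L) ^ (d - j)) base L _ (by positivity) hM ?_)
      · apply Set.ncard_le_ncard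
        · intro v hv
          obtain ⟨-, -, z, z', h1, h2, h3⟩ := hv
          refine ⟨z, z', ?_, ?_, ?_⟩
          · rw [← hbase v]; exact h1
          · rw [← hbase v]; exact h2
          · rw [← hb0 v, ← hb1 v]; exact h3
        · exact Set.toFinite _
      · intro a ha v hv
        rw [mem_insert, mem_singleton] at ha
        rcases ha with rfl | rfl
        · apply hout b hb _ v hv
          intro h
          have := sib_mod (b / 2 ^ (d - j))
          rw [← hnd, h] at this
          exact this rfl
        · exact hout b' hb' hns v hv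
  · obtain ⟨f, hf⟩ := hex
    refine ⟨ext f, ext_lt hL0 f, ?_⟩
    intro b b' j hb hb' hne hj hjd hns z z' hz hz'
    by_contra hcon
    obtain ⟨i, rfl⟩ : ∃ i, j = i + 1 := ⟨j - 1, by omega⟩
    refine hf ((⟨b, hb⟩, ⟨b', hb'⟩), ⟨i, by omega⟩) (mem_univ _) ⟨?_, hns, z, z', hz, hz', hcon⟩
    intro e
    exact hne (congrArg Fin.val e)

end Pool.Agent.W2helper90.FC
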