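import Pool.Agent.W2helper90.FC.Local
import Pool.Agent.TH138.NF.Main
import Pool.Agent.TH138.NF.End

/-!
# Higher uniformities
-/

set_option autoImplicit false

namespace Pool.Agent.W2helper90.FC

open Finset Pool.Agent.TH138.NF

/-- one step of the argument of Erdős and Rado -/
theorem rado {κ : Type} [Fintype κ] [DecidableEq κ] (c : Finset ℕ → κ) (s t N : ℕ)
    (hN : (2 * Fintype.card κ ^ ((s + 1) * t ^ s)) ^ t ≤ N) :
    ∃ (v : ℕ → ℕ) (w : ℕ), w < N ∧ (∀ i j, i < j → j < t → v i < v j) ∧ (∀ i < t, v i < w) ∧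
      ∀ B ⊆ range t, B.card = s + 2 → ∀ j ∈ B, (∀ i ∈ B, i ≤ j) →
        c (B.image v) = c (insert w ((B.erase j).image v)) := by
  classical
  obtain ⟨v, W, hWV, hWc, hvV, hvm, hvW, h1, h2⟩ := end_hom
    (fun x : Fin (s + 2) → ℕ => c (univ.image x)) (range N) t
    (2 * Fintype.card κ ^ ((s + 1) * t ^ s)) rfl (by rwa [card_range]) t le_rfl
  have hWne : W.Nonempty := by
    rw [← card_pos]
    simpa using hWc
  obtain ⟨w, hw⟩ := hWne
  refine ⟨v, w, mem_range.1 (hWV hw), hvm, fun i hi => hvW i hi w hw, ?_⟩
  intro B hB hBc j hj hmax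
  have hA : (B.erase j).card = s + 1 := by
    rw [card_erase_of_mem hj, hBc]
    rfl
  have key := h2 (fun a => (B.erase j).orderEmbOfFin hA a) j (mem_range.1 (hB hj)) (by
    intro a
    have h3 := (B.erase j).orderEmbOfFin_mem hA a
    rw [mem_erase] at h3
    exact lt_of_le_of_ne (hmax _ h3.2) h3.1) w hw
  have himg : ∀ x : ℕ, univ.image (Fin.snoc (α := fun _ => ℕ)
      (fun a => v ((B.erase j).orderEmbOfFin hA a)) x) = insert x ((B.erase j).image v) := by
    intro x
    ext y
    simp only [mem_image, mem_univ, true_and, mem_insert]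
    constructor
    · rintro ⟨a, rfl⟩
      refine Fin.lastCases ?_ (fun a => ?_) a
      · left
        exact Fin.snoc_last _ _
      · right
        refine ⟨_, (B.erase j).orderEmbOfFin_mem hA a, ?_⟩
        exact (Fin.snoc_castSucc (α := fun _ => ℕ) x
          (fun a => v ((B.erase j).orderEmbOfFin hA a)) a).symm
    · rintro (rfl | ⟨z, hz, rfl⟩)
      · exact ⟨Fin.last _, Fin.snoc_last _ _⟩
      · have h4 : z ∈ Set.range ((B.erase j).orderEmbOfFin hA) := by
          rw [Finset.range_orderEmbOfFin]
          exact hz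
        obtain ⟨a, rfl⟩ := h4
        exact ⟨a.castSucc, Fin.snoc_castSucc (α := fun _ => ℕ) _ _ _⟩
  have h5 := himg (v j)
  have h6 := himg w
  rw [← image_insert, insert_erase hj] at h5
  rw [h5, h6] at key
  exact key

theorem changes_rado {κ : Type} {c : Finset ℕ → κ} {N t w : ℕ} {v : ℕ → ℕ} (hw : w < N)
    (hv : ∀ i j, i < j → j < t → v i < v j) (hvw : ∀ i < t, v i < w) {A : Finset ℕ}
    (hA : A ⊆ range t) :
    changes (fun S => c (insert w (S.image v))) t A ≤ changes c N (insert w (A.image v)) := by
  classical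
  set A' := insert w (A.image v) with hA'
  have hcol : ∀ z, c (insert w ((insert z A).image v)) = c (insert (v z) A') := by
    intro z
    rw [image_insert, hA', Finset.insert_comm]
  have hmono : ∀ i j, i ≤ j → j < t → v i ≤ v j := by
    intro i j hij hj
    rcases hij.eq_or_lt with rfl | h
    · exact le_rfl
    · exact (hv i j h hj).le
  -- the set of changes of the new colouring
  let T := (range t).filter fun z => z + 1 < t ∧ z ∉ A ∧ z + 1 ∉ A ∧
    c (insert (v z) A') ≠ c (insert (v (z + 1)) A')
  have hT : changes (fun S => c (insert w (S.image v))) t A ≤ T.card := by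
    apply changes_le
    intro z h1 h2 h3 h4
    rw [mem_filter]
    refine ⟨mem_range.2 (by omega), h1, h2, h3, ?_⟩
    rw [← hcol, ← hcol]
    exact h4
  refine hT.trans ?_
  have hch : ∀ z ∈ T, ∃ y, v z ≤ y ∧ y < v (z + 1) ∧
      c (insert y A') ≠ c (insert (y + 1) A') := by
    intro z hz
    rw [mem_filter] at hz
    obtain ⟨-, h1, h2, h3, h4⟩ := hz
    by_contra hcon
    push Not at hcon
    have key : ∀ y, v z ≤ y → y ≤ v (z + 1) → c (insert (v z) A') = c (insert y A') := by
      intro y hy
      induction y, hy using Nat.le_induction with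
      | base => intro _; rfl
      | succ y hy ih =>
        intro h5
        rw [ih (by omega)]
        exact hcon y hy (by omega)
    exact h4 (key _ (hmono _ _ (by omega) h1) le_rfl)
  choose! g hg using hch
  have hout : ∀ z ∈ T, ∀ y, v z ≤ y → y ≤ v (z + 1) → y ∉ A' := by
    intro z hz y h5 h6 hmem
    rw [mem_filter] at hz
    obtain ⟨-, h1, h2, h3, h4⟩ := hz
    rw [hA', mem_insert, mem_image] at hmem
    rcases hmem with h7 | ⟨a, ha, h7⟩
    · have := hvw (z + 1) h1
      omega
    · have hat := mem_range.1 (hA ha)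
      have hza : a ≠ z := fun h => h2 (h ▸ ha)
      have hza' : a ≠ z + 1 := fun h => h3 (h ▸ ha)
      rcases lt_or_gt_of_ne hza with h | h
      · have := hv a z h (by omega)
        omega
      · have := hv (z + 1) a (by omega) hat
        omega
  have hginj : Set.InjOn g T := by
    intro z hz z' hz' heq
    have a1 := hg z hz
    have a2 := hg z' hz'
    have b1 := (mem_filter.1 hz).2.1
    have b2 := (mem_filter.1 hz').2.1
    rcases lt_trichotomy z z' with h | h | h
    · have := hmono (z + 1) z' h (by omega)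
      omega
    · exact h
    · have := hmono (z' + 1) z h (by omega)
      omega
  rw [← card_image_of_injOn hginj]
  apply card_le_changes
  intro y hy
  rw [mem_image] at hy
  obtain ⟨z, hz, rfl⟩ := hy
  obtain ⟨h5, h6, h7⟩ := hg z hz
  have h1 := (mem_filter.1 hz).2.1
  refine ⟨?_, hout z hz _ h5 h6.le, hout z hz _ (by omega) (by omega), h7⟩
  have := hvw (z + 1) h1
  omega

/-- `d` -/
def dd (n : ℕ) : ℕ := (n - 2) * (n - 2) + 1

/-- The number of vertices which is enough for uniformity `i + 3`. -/
def Bd (n k : ℕ) : ℕ → ℕ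
  | 0 => (2 * (4 ^ dd n * dd n * k + 1)) ^ dd n
  | i + 1 => (2 * 2 ^ ((i + 3) * Bd n k i ^ (i + 2))) ^ Bd n k i

theorem homogeneous_of_mono {c : Finset ℕ → Bool} {i : Bool} {S : Finset ℕ}
    (h : Mono3 c i S) : Homogeneous 3 c S := by
  intro A hA B hB hAc hBc
  rw [h A hA hAc, h B hB hBc]

theorem changes_comp {κ κ' : Type} (g : κ → κ') (hg : Function.Injective g) (c : Finset ℕ → κ)
    (N : ℕ) (A : Finset ℕ) : changes (fun S => g (c S)) N A = changes c N A := by
  unfold changes
  congr 1
  ext z
  simp [hg.eq_iff]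

theorem two_bool (s t k N d : ℕ) (hd : (s - 2) * (t - 2) < d)
    (hN : (2 * (4 ^ d * d * k + 1)) ^ d ≤ N) (c : Finset ℕ → Bool)
    (hc : ∀ A ⊆ range N, A.card = 2 → changes c N A ≤ k) :
    (∃ S ⊆ range N, S.card = s ∧ Mono3 c false S) ∨
      (∃ S ⊆ range N, S.card = t ∧ Mono3 c true S) := by
  have h := two_colours s t k N d hd hN (fun S => finTwoEquiv.symm (c S)) (fun A hA hcard => by
    rw [changes_comp _ finTwoEquiv.symm.injective]
    exact hc A hA hcard)
  have e0 : finTwoEquiv.symm false = 0 := rfl
  have e1 : finTwoEquiv.symm true = 1 := rfl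
  rcases h with ⟨S, hS, hcard, hm⟩ | ⟨S, hS, hcard, hm⟩
  · exact Or.inl ⟨S, hS, hcard, fun T hT hT3 => finTwoEquiv.symm.injective (by
      rw [e0]; exact hm T hT hT3)⟩
  · exact Or.inr ⟨S, hS, hcard, fun T hT hT3 => finTwoEquiv.symm.injective (by
      rw [e1]; exact hm T hT hT3)⟩

/-- Two colours, any uniformity. -/
theorem two_all (n k : ℕ) (i : ℕ) : ∀ (N : ℕ) (c : Finset ℕ → Bool), Bd n k i ≤ N →
    (∀ A ⊆ range N, A.card = i + 2 → changes c N A ≤ k) →
    ∃ S ⊆ range N, S.card = n ∧ Homogeneous (i + 3) c S := by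
  classical
  induction i with
  | zero =>
    intro N c hN hc
    rcases two_bool n n k N (dd n) (Nat.lt_succ_self _) hN c hc with
      ⟨S, hS, hcard, hm⟩ | ⟨S, hS, hcard, hm⟩
    · exact ⟨S, hS, hcard, homogeneous_of_mono hm⟩
    · exact ⟨S, hS, hcard, homogeneous_of_mono hm⟩
  | succ i ih =>
    intro N c hN hc
    set t := Bd n k i with ht
    obtain ⟨v, w, hw, hvm, hvw, hcol⟩ := rado c (i + 2) t N (by
      rw [Fintype.card_bool]
      exact hN)
    obtain ⟨S, hS, hcard, hhom⟩ := ih t (fun S => c (insert w (S.image v))) le_rfl (by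
      intro A hA hAc
      refine (changes_rado hw hvm hvw hA).trans (hc _ ?_ ?_)
      · intro x hx
        rw [mem_insert, mem_image] at hx
        rw [mem_range]
        rcases hx with rfl | ⟨a, ha, rfl⟩
        · exact hw
        · exact (hvw a (mem_range.1 (hA ha))).trans hw
      · rw [card_insert_of_notMem, card_image_of_injOn, hAc]
        · intro a ha b hb hab
          have ha' := mem_range.1 (hA ha)
          have hb' := mem_range.1 (hA hb)
          rcases lt_trichotomy a b with h | h | h
          · exact absurd hab (hvm a b h hb').ne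
          · exact h
          · exact absurd hab (hvm b a h ha').ne'
        · intro hmem
          rw [mem_image] at hmem
          obtain ⟨a, ha, h⟩ := hmem
          exact (hvw a (mem_range.1 (hA ha))).ne h)
    have hinj : Set.InjOn v (range t : Finset ℕ) := by
      intro a ha b hb hab
      have ha' := mem_range.1 ha
      have hb' := mem_range.1 hb
      rcases lt_trichotomy a b with h | h | h
      · exact absurd hab (hvm a b h hb').ne
      · exact h
      · exact absurd hab (hvm b a h ha').ne'
    refine ⟨S.image v, ?_, ?_, ?_⟩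
    · intro x hx
      rw [mem_image] at hx
      obtain ⟨a, ha, rfl⟩ := hx
      exact mem_range.2 ((hvw a (mem_range.1 (hS ha))).trans hw)
    · rw [card_image_of_injOn (hinj.mono (by exact_mod_cast hS)), hcard]
    · have hone : ∀ A ⊆ S.image v, A.card = i + 1 + 3 → ∃ A' ⊆ S, A'.card = i + 3 ∧
          c A = c (insert w (A'.image v)) := by
        intro A hA hAc
        obtain ⟨B, hB, rfl⟩ := Finset.subset_image_iff.1 hA
        have hBS : B ⊆ S := by exact_mod_cast hB
        have hBc : B.card = i + 2 + 2 := by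
          rw [card_image_of_injOn (hinj.mono (by exact_mod_cast hBS.trans hS))] at hAc
          omega
        have hne : B.Nonempty := card_pos.1 (by omega)
        refine ⟨B.erase (B.max' hne), (erase_subset _ _).trans hBS, ?_, ?_⟩
        · rw [card_erase_of_mem (B.max'_mem hne), hBc]
          omega
        · exact hcol B (hBS.trans hS) hBc _ (B.max'_mem hne) (fun i hi => B.le_max' i hi)
      intro A hA B hB hAc hBc
      obtain ⟨A', hA', hA'c, hA''⟩ := hone A hA hAc
      obtain ⟨B', hB', hB'c, hB''⟩ := hone B hB hBc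
      rw [hA'', hB'']
      exact hhom A' hA' B' hB' hA'c hB'c

end Pool.Agent.W2helper90.FC
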